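import Mathlib
import Pool.Agent.MP_16e930_an.H27.Top

set_option autoImplicit false
open scoped ContDiff
open Metric Filter Topology MeasureTheory

namespace Pool.Agent.Results.MP_16e930_an.NoFatou

/-- Euclidean 3-space. -/
abbrev R3 : Type := EuclideanSpace ℝ (Fin 3)

/-- `F` is in `L³` of every compact subset of the open unit ball. -/
def LocL3 {V : Type} [NormedAddCommGroup V] (F : R3 → V) : Prop :=
  ∀ C ⊆ ball (0 : R3) 1, IsCompact C → MemLp F 3 (volume.restrict C)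

/-- A smooth function with compact support in the open unit ball. -/
def IsTest (φ : R3 → ℝ) : Prop :=
  ContDiff ℝ ∞ φ ∧ HasCompactSupport φ ∧ tsupport φ ⊆ ball (0 : R3) 1

/-- The derivative of `φ` at `x` in the `j`-th coordinate direction. -/
noncomputable def pd (φ : R3 → ℝ) (j : Fin 3) (x : R3) : ℝ :=
  fderiv ℝ φ x (EuclideanSpace.single j 1)

/-- The matrix entry `(i, j)` of a linear map. -/
noncomputable def entry (A : R3 →L[ℝ] R3) (i j : Fin 3) : ℝ := A (EuclideanSpace.single j 1) i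

/-- `w` is the distributional derivative of `u` in the `j`-th direction on the ball. -/
def IsWeakDeriv (u w : R3 → ℝ) (j : Fin 3) : Prop :=
  ∀ φ : R3 → ℝ, IsTest φ → ∫ x, pd φ j x * u x = -∫ x, φ x * w x

/-- `f` lies in `W^{1,3}_loc` of the unit ball, with weak differential `Df`. -/
structure IsSobolev (f : R3 → R3) (Df : R3 → R3 →L[ℝ] R3) : Prop where
  memLp : LocL3 f
  memLp_deriv : LocL3 Df
  parts : ∀ i j : Fin 3, IsWeakDeriv (fun x => f x i) (fun x => entry (Df x) i j) j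

/-- The distortion inequality `|A|³ ≤ K det A` for the operator norm. -/
def Distortion (K : ℝ) (A : R3 →L[ℝ] R3) : Prop := ‖A‖ ^ 3 ≤ K * A.det

/-- Quasiregular on the open unit ball. -/
def IsQuasiregular (f : R3 → R3) : Prop :=
  ContinuousOn f (ball 0 1) ∧ ∃ Df : R3 → R3 →L[ℝ] R3, IsSobolev f Df ∧ ∃ K : ℝ, 1 ≤ K ∧
    ∀ᵐ x ∂(volume.restrict (ball (0 : R3) 1)), Distortion K (Df x)

/-- `f` has a radial limit at `ζ`. -/
def HasRadialLimit (f : R3 → R3) (ζ : R3) : Prop :=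
  ∃ L : R3, Tendsto (fun t : ℝ => f (t • ζ)) (𝓝[<] 1) (𝓝 L)

theorem result : ∃ f : R3 → R3, IsQuasiregular f ∧ Set.MapsTo f (ball 0 1) (ball 0 1) ∧
    0 < μH[2] {ζ ∈ sphere (0 : R3) 1 | ¬ HasRadialLimit f ζ} := by
  obtain ⟨f, h1, h2, h3, h4⟩ := Pool.Agent.MP_16e930_an.H27.ballStmt
  obtain ⟨a, b, c, d⟩ := Pool.Agent.MP_16e930_an.H27.rowSob f h1
  exact ⟨f, ⟨a, fderiv ℝ f, ⟨b, c, fun i j φ hφ =>
    d φ (hφ.1.of_le (by simp)) hφ.2.1 hφ.2.2 _ i⟩, h3⟩, h2, h4⟩

end Pool.Agent.Results.MP_16e930_an.NoFatou
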