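import Mathlib
import Pool.Agent.MP_16e930_an.H75.Smooth

set_option autoImplicit false
open scoped ContDiff
open Metric Filter Topology MeasureTheory

namespace Pool.Agent.Results.MP_16e930_an.RadialLimit

/-- Euclidean 3-space. -/
abbrev R3 : Type := EuclideanSpace ℝ (Fin 3)

/-- `F` is in `L³` of every compact subset of the open unit ball. -/
def LocL3 {V : Type} [NormedAddCommGroup V] (F : R3 → V) : Prop :=
  ∀ C ⊆ ball (0 : R3) 1, IsCompact C → MemLp F 3 (volume.restrict C)

/-- A smooth function with compact support in the open unit ball. -/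
def IsTest (φ : R3 → ℝ) : Prop :=
  ContDiff ℝ ∞ φ ∧ HasCompactSupport φ ∧ tsupport φ ⊆ ball (0 : R3) 1

/-- The derivative of `φ` at `x` in the `j`-th coordinate direction. -/
noncomputable def pd (φ : R3 → ℝ) (j : Fin 3) (x : R3) : ℝ :=
  fderiv ℝ φ x (EuclideanSpace.single j 1)

/-- The matrix entry `(i, j)` of a linear map. -/
noncomputable def entry (A : R3 →L[ℝ] R3) (i j : Fin 3) : ℝ := A (EuclideanSpace.single j 1) i

/-- `w` is the distributional derivative of `u` in the `j`-th direction on the ball. -/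
def IsWeakDeriv (u w : R3 → ℝ) (j : Fin 3) : Prop :=
  ∀ φ : R3 → ℝ, IsTest φ → ∫ x, pd φ j x * u x = -∫ x, φ x * w x

/-- `f` lies in `W^{1,3}_loc` of the unit ball, with weak differential `Df`. -/
structure IsSobolev (f : R3 → R3) (Df : R3 → R3 →L[ℝ] R3) : Prop where
  memLp : LocL3 f
  memLp_deriv : LocL3 Df
  parts : ∀ i j : Fin 3, IsWeakDeriv (fun x => f x i) (fun x => entry (Df x) i j) j

/-- The distortion inequality `|A|³ ≤ K det A` for the operator norm. -/
def Distortion (K : ℝ) (A : R3 →L[ℝ] R3) : Prop := ‖A‖ ^ 3 ≤ K * A.det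

/-- Quasiregular on the open unit ball. -/
def IsQuasiregular (f : R3 → R3) : Prop :=
  ContinuousOn f (ball 0 1) ∧ ∃ Df : R3 → R3 →L[ℝ] R3, IsSobolev f Df ∧ ∃ K : ℝ, 1 ≤ K ∧
    ∀ᵐ x ∂(volume.restrict (ball (0 : R3) 1)), Distortion K (Df x)

lemma intOn {V : Type} [NormedAddCommGroup V] {F : R3 → V} {C : Set R3} (hC : IsCompact C)
    (h : MemLp F 3 (volume.restrict C)) : IntegrableOn F C := by
  have : IsFiniteMeasure (volume.restrict C) := isFiniteMeasure_restrict.2 hC.measure_lt_top.ne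
  exact h.integrable (by norm_num)

lemma IsSobolev.weak {f : R3 → R3} {Df : R3 → R3 →L[ℝ] R3} (h : IsSobolev f Df)
    (φ : R3 → ℝ) (h1 : ContDiff ℝ 1 φ) (h2 : HasCompactSupport φ)
    (h3 : tsupport φ ⊆ ball (0 : R3) 1) (v : R3) :
    ∫ x, (fderiv ℝ φ x v) • f x = -∫ x, φ x • (Df x v) := by
  have hK : IsCompact (tsupport φ) := h2
  have hd : Continuous (fderiv ℝ φ) := h1.continuous_fderiv one_ne_zero
  have hs : ∀ w, Function.support (fun x => fderiv ℝ φ x w) ⊆ tsupport φ := fun w x hx => by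
    by_contra hn
    exact hx (by simp [fderiv_of_notMem_tsupport ℝ hn])
  have i1 : ∀ C ⊆ ball (0 : R3) 1, IsCompact C → IntegrableOn f C :=
    fun C a b => intOn b (h.memLp C a b)
  have i2 : ∀ w, ∀ C ⊆ ball (0 : R3) 1, IsCompact C → IntegrableOn (fun x => Df x w) C :=
    fun w C a b => (ContinuousLinearMap.apply ℝ R3 w).integrable_comp (intOn b (h.memLp_deriv C a b))
  have j1 : ∀ w, Integrable fun x => fderiv ℝ φ x w • f x := fun w =>
    Pool.Agent.MP_16e930_an.H75.integrable_smul hK (hs w) (hd.clm_apply continuous_const)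
      (i1 _ h3 hK)
  have j2 : ∀ w, Integrable fun x => φ x • Df x w := fun w =>
    Pool.Agent.MP_16e930_an.H75.integrable_smul hK (subset_tsupport φ) h1.continuous
      (i2 w _ h3 hK)
  have basis : ∀ j : Fin 3, ∫ x, (fderiv ℝ φ x (EuclideanSpace.single j 1)) • f x =
      -∫ x, φ x • (Df x (EuclideanSpace.single j 1)) := fun j => by
    ext i
    have e := Pool.Agent.MP_16e930_an.H75.weak_of_smooth isOpen_ball (u := fun x => f x i)
      (w := fun x => Df x (EuclideanSpace.single j 1) i) (EuclideanSpace.single j 1)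
      (fun C a b => (EuclideanSpace.proj i : R3 →L[ℝ] ℝ).integrable_comp (i1 C a b))
      (fun C a b => (EuclideanSpace.proj i : R3 →L[ℝ] ℝ).integrable_comp (i2 _ C a b))
      (fun ψ a b c => h.parts i j ψ ⟨a, b, c⟩) φ h1 h2 h3
    have e1 := (EuclideanSpace.proj i : R3 →L[ℝ] ℝ).integral_comp_comm
      (j1 (EuclideanSpace.single j 1))
    have e2 := (EuclideanSpace.proj i : R3 →L[ℝ] ℝ).integral_comp_comm
      (j2 (EuclideanSpace.single j 1))
    rw [PiLp.neg_apply]
    exact e1.symm.trans (e.trans (congrArg Neg.neg e2))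
  have hv : v = ∑ j : Fin 3, v j • EuclideanSpace.single j (1 : ℝ) := by
    ext i
    simp [Pi.single_apply]
  rw [hv]
  simp only [map_sum, map_smul, Finset.sum_smul, Finset.smul_sum, smul_assoc,
    fun x j => smul_comm (φ x) (v j) (Df x (EuclideanSpace.single j 1))]
  rw [integral_finsetSum (f := fun j x => v j • fderiv ℝ φ x (EuclideanSpace.single j 1) • f x) _
      fun j _ => (j1 _).smul (v j),
    integral_finsetSum (f := fun j x => v j • φ x • Df x (EuclideanSpace.single j 1)) _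
      fun j _ => (j2 _).smul (v j), ← Finset.sum_neg_distrib]
  refine Finset.sum_congr rfl fun j _ => ?_
  rw [integral_smul, integral_smul, basis, smul_neg]

lemma IsSobolev.meas {f : R3 → R3} {Df : R3 → R3 →L[ℝ] R3} (h : IsSobolev f Df) :
    AEStronglyMeasurable Df (volume.restrict (ball (0 : R3) 1)) :=
  LocallyIntegrableOn.aestronglyMeasurable ((locallyIntegrableOn_iff isOpen_ball.isLocallyClosed).2
    fun C a b => intOn b (h.memLp_deriv C a b))

theorem result (f : R3 → R3) (hf : IsQuasiregular f)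
    (hb : Bornology.IsBounded (f '' ball (0 : R3) 1)) :
    ∃ ζ ∈ sphere (0 : R3) 1, ∃ L : R3, Tendsto (fun t : ℝ => f (t • ζ)) (𝓝[<] 1) (𝓝 L) := by
  obtain ⟨hc, Df, hS, K, -, hK⟩ := hf
  obtain ⟨R, hR0, hR⟩ := hb.subset_ball_lt 0 0
  have hi : 0 < R⁻¹ := inv_pos.2 hR0
  have Q : Pool.Agent.MP_16e930_an.H98.QR (fun x => R⁻¹ • f x) (fun x => R⁻¹ • Df x) K := by
    refine ⟨fun x hx => ?_, hc.const_smul R⁻¹, hS.meas.const_smul R⁻¹, ?_, fun φ a b c v => ?_, ?_⟩
    · have := mem_ball_zero_iff.1 (hR ⟨x, hx, rfl⟩)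
      rwa [mem_ball_zero_iff, norm_smul, Real.norm_of_nonneg hi.le, inv_mul_lt_one₀ hR0]
    · refine (locallyIntegrableOn_iff isOpen_ball.isLocallyClosed).2 fun C a b => ?_
      exact ((hS.memLp_deriv C a b).const_smul R⁻¹).integrable_norm_pow (p := 3) (by norm_num)
    · have e1 : ∀ x, fderiv ℝ φ x v • R⁻¹ • f x = R⁻¹ • fderiv ℝ φ x v • f x :=
        fun x => smul_comm _ _ _
      have e2 : ∀ x, φ x • (R⁻¹ • Df x) v = R⁻¹ • φ x • Df x v :=
        fun x => smul_comm (φ x) R⁻¹ (Df x v)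
      simp only [e1, e2]
      rw [integral_smul, integral_smul, hS.weak φ a b c v, smul_neg]
    · filter_upwards [hK] with x hx
      rw [norm_smul, Real.norm_of_nonneg hi.le, ContinuousLinearMap.toLinearMap_smul, LinearMap.det_smul,
        finrank_euclideanSpace_fin, mul_pow, mul_left_comm]
      exact mul_le_mul_of_nonneg_left hx (by positivity)
  obtain ⟨ζ, h1, L, h2⟩ := Q.radial
  refine ⟨ζ, h1, R • L, (h2.const_smul R).congr fun t => ?_⟩
  rw [smul_inv_smul₀ hR0.ne']

end Pool.Agent.Results.MP_16e930_an.RadialLimit
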